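import Mathlib
set_option autoImplicit false
open Finset
open scoped Classical

/-!
The vertex-coloured Gallai-Ramsey number `GR*_k(H)` equals `GR_{k-1}` of the homomorphic copies of
`H` for every connected graph `H` and every graph homomorphically equivalent to one.
-/

namespace Pool.Agent.Results.MP_114a18_co.ConnectedGraphs

/-- The graph of the edges of colour `i`. -/
def colourGraph {V : Type} {k : ℕ} (c : Sym2 V → Fin k) (i : Fin k) : SimpleGraph V where
  Adj a b := a ≠ b ∧ c s(a, b) = i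
  symm := ⟨fun _ _ h => ⟨h.1.symm, by rw [Sym2.eq_swap]; exact h.2⟩⟩
  loopless := ⟨fun _ h => h.1 rfl⟩

/-- The edge colouring has no rainbow triangle. -/
def IsGallai {V : Type} {k : ℕ} (c : Sym2 V → Fin k) : Prop :=
  ∀ x y z : V, x ≠ y → y ≠ z → x ≠ z →
    c s(x, y) = c s(y, z) ∨ c s(y, z) = c s(x, z) ∨ c s(x, y) = c s(x, z)

/-- The colouring contains a monochromatic homomorphic copy of `H`. -/
def HasMono {V W : Type} {k : ℕ} (H : SimpleGraph W) (c : Sym2 V → Fin k) : Prop :=
  ∃ i, Nonempty (H →g colourGraph c i)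

/-- `GR_k` of the family of homomorphic copies of `H`. -/
noncomputable def GR {W : Type} (H : SimpleGraph W) (k : ℕ) : ℕ :=
  sInf {n | ∀ c : Sym2 (Fin n) → Fin k, IsGallai c → HasMono H c}

/-- `GR*_k(H)`: here `c` colours the edges and `f` the vertices. -/
noncomputable def GRstar {W : Type} (H : SimpleGraph W) (k : ℕ) : ℕ :=
  sInf {n | ∀ (c : Sym2 (Fin n) → Fin k) (f : Fin n → Fin k),
    (¬ IsGallai c ∨ HasMono H c) ∨ ∃ i j, i < j ∧ (c s(i, j) = f i ∨ c s(i, j) = f j)}

section Components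

variable {V : Type} [Finite V] {k : ℕ} (c : Sym2 V → Fin k)

/-- The vertex set of the component of colour `i` at `v`. -/
def S (i : Fin k) (v : V) : Set V := {w | (colourGraph c i).Reachable v w}

theorem mem_self (i : Fin k) (v : V) : v ∈ S c i v := SimpleGraph.Reachable.refl v

theorem S_eq {i : Fin k} {v w : V} (h : w ∈ S c i v) : S c i w = S c i v := by
  ext x
  exact ⟨fun hx => h.trans hx, fun hx => h.symm.trans hx⟩

variable (hc : IsGallai c)

include hc in
theorem module {i : Fin k} {v u w w' : V} (hu : u ∉ S c i v) (hw : w ∈ S c i v)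
    (hw' : w' ∈ S c i v) : c s(u, w) = c s(u, w') := by
  have key : ∀ {a b : V} (p : (colourGraph c i).Walk a b), a ∈ S c i v →
      c s(u, a) = c s(u, b) := by
    intro a b p
    induction p with
    | nil => intro _; rfl
    | @cons a b d h p ih =>
      intro ha
      have hb : b ∈ S c i v := ha.trans h.reachable
      rw [← ih hb]
      have hua : u ≠ a := fun e => hu (e ▸ ha)
      have hub : u ≠ b := fun e => hu (e ▸ hb)
      have h1 : c s(u, a) ≠ i := fun e => hu (ha.trans (SimpleGraph.Adj.reachable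
        (show (colourGraph c i).Adj a u from ⟨hua.symm, by rw [Sym2.eq_swap]; exact e⟩)))
      have h2 : c s(u, b) ≠ i := fun e => hu (hb.trans (SimpleGraph.Adj.reachable
        (show (colourGraph c i).Adj b u from ⟨hub.symm, by rw [Sym2.eq_swap]; exact e⟩)))
      rcases hc u a b hua h.1 hub with e | e | e
      · rw [h.2] at e; exact absurd e h1
      · rw [h.2] at e; exact absurd e.symm h2
      · exact e
  obtain ⟨p⟩ : (colourGraph c i).Reachable w w' := hw.symm.trans hw'
  exact key p hw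

include hc in
theorem laminar (i j : Fin k) (v : V) : S c i v ⊆ S c j v ∨ S c j v ⊆ S c i v := by
  by_cases h : S c j v ⊆ S c i v
  · exact Or.inr h
  · left
    rw [Set.not_subset] at h
    obtain ⟨y, hy, hyi⟩ := h
    obtain ⟨p⟩ : (colourGraph c j).Reachable v y := hy
    obtain ⟨d, hd, hd1, hd2⟩ := p.exists_boundary_dart (S c i v) (mem_self c i v) hyi
    have hfst : d.fst ∈ S c j v := by
      have hmem : d.fst ∈ p.support := p.dart_fst_mem_support_of_mem_darts hd
      exact ⟨p.takeUntil _ hmem⟩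
    have hsnd : d.snd ∈ S c j v := hfst.trans d.adj.reachable
    intro x hx
    have h1 := module c hc hd2 hd1 hx
    have h2 : c s(d.snd, d.fst) = j := by
      rw [Sym2.eq_swap]
      exact d.adj.2
    have hne : d.snd ≠ x := fun e => hd2 (e ▸ hx)
    refine hsnd.trans (SimpleGraph.Adj.reachable (show (colourGraph c j).Adj d.snd x from
      ⟨hne, by rw [← h1]; exact h2⟩))

include hc in
theorem sub_of_le {i j : Fin k} {v : V} (h : (S c i v).ncard ≤ (S c j v).ncard) :
    S c i v ⊆ S c j v := by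
  rcases laminar c hc i j v with h1 | h1
  · exact h1
  · exact (Set.eq_of_subset_of_ncard_le h1 h (Set.toFinite _)).ge

/-- The colours that come before colour `i` at the vertex `v`. -/
noncomputable def before (v : V) (i : Fin k) : Finset (Fin k) :=
  univ.filter fun j => (∃ u, u ≠ v ∧ c s(u, v) = j) ∧
    ((S c i v).ncard < (S c j v).ncard ∨ ((S c i v).ncard = (S c j v).ncard ∧ j < i))

theorem mem_before {v : V} {i j : Fin k} : j ∈ before c v i ↔
    (∃ u, u ≠ v ∧ c s(u, v) = j) ∧
    ((S c i v).ncard < (S c j v).ncard ∨ ((S c i v).ncard = (S c j v).ncard ∧ j < i)) := by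
  unfold before
  rw [mem_filter]
  exact ⟨fun h => h.2, fun h => ⟨mem_univ _, h⟩⟩

theorem exists_nbr {j : Fin k} {v u : V} (h : u ∈ S c j v) (hne : u ≠ v) :
    ∃ w, w ≠ u ∧ c s(w, u) = j := by
  obtain ⟨p⟩ : (colourGraph c j).Reachable u v := h.symm
  cases p with
  | nil => exact absurd rfl hne
  | cons h' p => exact ⟨_, h'.1.symm, by rw [Sym2.eq_swap]; exact h'.2⟩

include hc in
theorem before_sub {u v : V} {i : Fin k} (huv : u ≠ v) (h : c s(u, v) = i) :
    before c v i ⊆ before c u i := by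
  intro j hj
  rw [mem_before] at hj ⊢
  obtain ⟨h1, h2⟩ := hj
  have hu : u ∈ S c i v := SimpleGraph.Adj.reachable
    (show (colourGraph c i).Adj v u from ⟨huv.symm, by rw [Sym2.eq_swap]; exact h⟩)
  have hle : (S c i v).ncard ≤ (S c j v).ncard := by
    rcases h2 with h2 | h2
    · exact h2.le
    · exact h2.1.le
  have hu' : u ∈ S c j v := sub_of_le c hc hle hu
  rw [S_eq c hu, S_eq c hu']
  exact ⟨exists_nbr c hu' huv, h2⟩

include hc in
theorem before_eq {u v : V} {i : Fin k} (huv : u ≠ v) (h : c s(u, v) = i) :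
    before c v i = before c u i :=
  Subset.antisymm (before_sub c hc huv h)
    (before_sub c hc huv.symm (by rw [Sym2.eq_swap]; exact h))

theorem not_mem_before (v : V) (i : Fin k) : i ∉ before c v i := by
  rw [mem_before]
  rintro ⟨-, h | h⟩
  · exact lt_irrefl _ h
  · exact lt_irrefl _ h.2

theorem before_lt {v : V} {i j : Fin k} (hj : j ∈ before c v i) :
    (before c v j).card < (before c v i).card := by
  apply card_lt_card
  rw [ssubset_iff_of_subset]
  · exact ⟨j, hj, not_mem_before c v j⟩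
  · intro l hl
    rw [mem_before] at hl hj ⊢
    refine ⟨hl.1, ?_⟩
    rcases hl.2 with h1 | h1 <;> rcases hj.2 with h2 | h2
    · left; omega
    · left; omega
    · left; omega
    · right; exact ⟨h2.1.trans h1.1, h1.2.trans h2.2⟩

theorem before_inj {v : V} {i j : Fin k} (hi : ∃ u, u ≠ v ∧ c s(u, v) = i)
    (hj : ∃ u, u ≠ v ∧ c s(u, v) = j) (h : (before c v i).card = (before c v j).card) : i = j := by
  by_contra hne
  have h1 : i ∈ before c v j ∨ j ∈ before c v i := by
    rw [mem_before, mem_before]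
    rcases lt_trichotomy (S c i v).ncard (S c j v).ncard with h1 | h1 | h1
    · exact Or.inr ⟨hj, Or.inl h1⟩
    · rcases lt_or_gt_of_ne hne with h2 | h2
      · exact Or.inl ⟨hi, Or.inr ⟨h1.symm, h2⟩⟩
      · exact Or.inr ⟨hj, Or.inr ⟨h1, h2⟩⟩
    · exact Or.inl ⟨hi, Or.inl h1⟩
  rcases h1 with h1 | h1
  · have := before_lt c h1; omega
  · have := before_lt c h1; omega

end Components

/-- The recolouring with one colour less. -/
theorem recolour {V : Type} [Finite V] {k : ℕ} (hk : 0 < k) (c : Sym2 V → Fin (k + 1))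
    (hc : IsGallai c) (f : V → Fin (k + 1)) (hf : ∀ u v, u ≠ v → c s(u, v) ≠ f v) :
    ∃ c' : Sym2 V → Fin k, IsGallai c' ∧ ∀ a b d : V, a ≠ b → b ≠ d → c' s(a, b) = c' s(b, d) →
      c s(a, b) = c s(b, d) := by
  have hlt : ∀ u v, u ≠ v → (before c v (c s(u, v))).card < k := by
    intro u v huv
    have h1 : insert (c s(u, v)) (before c v (c s(u, v))) ⊆ univ.erase (f v) := by
      intro j hj
      rw [mem_insert] at hj
      rw [mem_erase]
      refine ⟨?_, mem_univ _⟩
      rcases hj with rfl | hj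
      · exact hf u v huv
      · rw [mem_before] at hj
        obtain ⟨⟨w, hw, rfl⟩, -⟩ := hj
        exact hf w v hw
    have h2 := card_le_card h1
    rw [card_insert_of_notMem (not_mem_before c v _), card_erase_of_mem (mem_univ _), card_univ,
      Fintype.card_fin] at h2
    omega
  let g : V → V → Fin k := fun u v =>
    if h : u = v then ⟨0, hk⟩ else ⟨(before c v (c s(u, v))).card, hlt u v h⟩
  have hg : ∀ u v, g u v = g v u := by
    intro u v
    by_cases h : u = v
    · rw [h]
    · simp only [g, dif_neg h, dif_neg (Ne.symm h)]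
      congr 1
      rw [before_eq c hc h rfl, Sym2.eq_swap]
  let c' : Sym2 V → Fin k := Sym2.lift ⟨g, hg⟩
  have hc' : ∀ u v, u ≠ v → (c' s(u, v) : ℕ) = (before c v (c s(u, v))).card := by
    intro u v h
    change ((g u v : Fin k) : ℕ) = _
    simp only [g, dif_neg h]
  have hc'2 : ∀ u v, u ≠ v → (c' s(u, v) : ℕ) = (before c u (c s(u, v))).card := by
    intro u v h
    rw [hc' u v h, before_eq c hc h rfl]
  refine ⟨c', ?_, ?_⟩
  · intro x y z hxy hyz hxz
    rcases hc x y z hxy hyz hxz with h | h | h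
    · left
      apply Fin.ext
      rw [hc' x y hxy, hc'2 y z hyz, h]
    · right; left
      apply Fin.ext
      rw [hc' y z hyz, hc' x z hxz, h]
    · right; right
      apply Fin.ext
      rw [hc'2 x y hxy, hc'2 x z hxz, h]
  · intro a b d hab hbd h
    have h1 := congrArg Fin.val h
    rw [hc' a b hab, hc'2 b d hbd] at h1
    exact before_inj c ⟨a, hab, rfl⟩ ⟨d, hbd.symm, by rw [Sym2.eq_swap]⟩ h1

/-- A connected graph with an edge that maps to a new colour class maps to an old one. -/
theorem transfer {V W : Type} {k l : ℕ} (c : Sym2 V → Fin l) (c' : Sym2 V → Fin k)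
    (h : ∀ a b d : V, a ≠ b → b ≠ d → c' s(a, b) = c' s(b, d) → c s(a, b) = c s(b, d))
    (H : SimpleGraph W) (hH : H.Connected) (hedge : ∃ x y, H.Adj x y) (hmono : HasMono H c') :
    HasMono H c := by
  obtain ⟨t, ⟨φ⟩⟩ := hmono
  obtain ⟨x0, y0, h0⟩ := hedge
  -- the old colour is constant along walks
  have key : ∀ {x z : W} (p : H.Walk x z), ∀ y y', H.Adj x y → H.Adj z y' →
      c s(φ x, φ y) = c s(φ z, φ y') := by
    intro x z p
    induction p with
    | nil =>
      intro y y' h1 h2
      have e1 := φ.map_adj h1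
      have e2 := φ.map_adj h2
      have := h (φ y) _ (φ y') e1.1.symm e2.1 (by rw [Sym2.eq_swap, e1.2, e2.2])
      rw [Sym2.eq_swap, this]
    | @cons x w z hxw p ih =>
      intro y y' h1 h2
      have e1 := φ.map_adj h1
      have e2 := φ.map_adj hxw
      have := h (φ y) (φ x) (φ w) e1.1.symm e2.1 (by rw [Sym2.eq_swap, e1.2, e2.2])
      rw [Sym2.eq_swap, this, ← ih x y' hxw.symm h2, Sym2.eq_swap]
  refine ⟨c s(φ x0, φ y0), ⟨⟨φ, ?_⟩⟩⟩
  intro a b hab
  obtain ⟨p⟩ := hH.preconnected x0 a
  exact ⟨(φ.map_adj hab).1, (key p y0 b h0 hab).symm⟩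

/-- The trivial inequality, and the reduction of the other one to a recolouring. -/
theorem reduce {W : Type} (H : SimpleGraph W) (hedge : ∃ x y, H.Adj x y) (k : ℕ)
    (h : ∀ (n : ℕ) (c : Sym2 (Fin n) → Fin (k + 1)) (f : Fin n → Fin (k + 1)), IsGallai c →
      ¬ HasMono H c → (∀ u v, u ≠ v → c s(u, v) ≠ f v) →
      ∃ c' : Sym2 (Fin n) → Fin k, IsGallai c' ∧ ¬ HasMono H c') :
    GRstar H (k + 1) = GR H k := by
  unfold GRstar GR
  congr 1
  ext n
  constructor
  · intro h c hc
    have h1 := h (fun e => (c e).castSucc) (fun _ => Fin.last k)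
    rcases h1 with (h1 | h1) | ⟨i, j, -, h1⟩
    · exfalso
      apply h1
      intro x y z hxy hyz hxz
      rcases hc x y z hxy hyz hxz with e | e | e
      · exact Or.inl (by simp only [e])
      · exact Or.inr (Or.inl (by simp only [e]))
      · exact Or.inr (Or.inr (by simp only [e]))
    · obtain ⟨i, ⟨g⟩⟩ := h1
      obtain ⟨x0, y0, h0⟩ := hedge
      have h2 := g.map_adj h0
      refine ⟨c s(g x0, g y0), ⟨⟨g, ?_⟩⟩⟩
      intro a b hab
      have h3 := g.map_adj hab
      refine ⟨h3.1, Fin.castSucc_injective _ ?_⟩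
      exact h3.2.trans h2.2.symm
    · rcases h1 with h1 | h1
      · exact absurd h1 (Fin.castSucc_lt_last _).ne
      · exact absurd h1 (Fin.castSucc_lt_last _).ne
  · intro h' c f
    by_contra hcon
    push Not at hcon
    obtain ⟨⟨hc, hm⟩, hf⟩ := hcon
    have hf' : ∀ u v, u ≠ v → c s(u, v) ≠ f v := by
      intro u v huv
      rcases lt_or_gt_of_ne huv with h1 | h1
      · exact (hf u v h1).2
      · have := (hf v u h1).1
        rwa [Sym2.eq_swap] at this
    obtain ⟨c', hc', hm'⟩ := h n c f hc hm hf'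
    exact hm' (h' c' hc')

theorem connected_case : ∀ (W : Type) (H : SimpleGraph W) (W' : Type) (H' : SimpleGraph W'),
    H'.Connected → (∃ x y, H'.Adj x y) → Nonempty (H →g H') → Nonempty (H' →g H) →
    ∀ k : ℕ, 2 ≤ k → GRstar H k = GR H (k - 1) := by
  intro W H W' H' hconn hedge ⟨φ⟩ ⟨ψ⟩ k hk
  obtain ⟨k, rfl⟩ : ∃ k', k = k' + 1 := ⟨k - 1, by omega⟩
  have hequiv : ∀ {V : Type} {m : ℕ} (c : Sym2 V → Fin m), HasMono H c ↔ HasMono H' c := by
    intro V m c
    constructor
    · rintro ⟨i, ⟨g⟩⟩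
      exact ⟨i, ⟨g.comp ψ⟩⟩
    · rintro ⟨i, ⟨g⟩⟩
      exact ⟨i, ⟨g.comp φ⟩⟩
  obtain ⟨x0, y0, h0⟩ := hedge
  refine reduce H ⟨ψ x0, ψ y0, ψ.map_adj h0⟩ k fun n c f hc hm hf => ?_
  obtain ⟨c', hc', htr⟩ := recolour (by omega) c hc f hf
  refine ⟨c', hc', fun hm' => hm ?_⟩
  rw [hequiv] at hm' ⊢
  exact transfer c c' htr H' hconn ⟨x0, y0, h0⟩ hm'

theorem two_colours (W : Type) (H : SimpleGraph W) (hedge : ∃ x y, H.Adj x y) :
    GRstar H 2 = GR H 1 := by
  refine reduce H hedge 1 fun n c f hc hm hf => ?_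
  refine ⟨fun _ => 0, fun x y z _ _ _ => Or.inl rfl, fun hm' => hm ?_⟩
  obtain ⟨i, ⟨g⟩⟩ := hm'
  obtain ⟨x0, y0, h0⟩ := hedge
  have h2 : ∀ a b d : Fin 2, a ≠ b → a ≠ d → b = d := by decide
  have hff : ∀ u v, f u = f v := by
    intro u v
    by_cases h : u = v
    · rw [h]
    · exact h2 (c s(u, v)) _ _ (by
        have := hf v u (Ne.symm h)
        rwa [Sym2.eq_swap] at this) (hf u v h)
  refine ⟨c s(g x0, g y0), ⟨⟨g, fun {a b} hab => ?_⟩⟩⟩
  refine ⟨(g.map_adj hab).1, ?_⟩
  have e1 := hf _ _ (g.map_adj hab).1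
  have e2 := hf _ _ (g.map_adj h0).1
  rw [hff (g y0) (g b)] at e2
  exact h2 (f (g b)) _ _ e1.symm e2.symm

/-- For every graph `H` (with an edge) that is homomorphically equivalent to a connected graph, in
particular for every connected graph, and every `k ≥ 2`, `GR*_k(H) = GR_{k-1}`; and for `k = 2` this
holds for every graph with an edge. -/
theorem result :
    (∀ (W : Type) (H : SimpleGraph W) (W' : Type) (H' : SimpleGraph W'),
      H'.Connected → (∃ x y, H'.Adj x y) → Nonempty (H →g H') → Nonempty (H' →g H) →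
      ∀ k : ℕ, 2 ≤ k → GRstar H k = GR H (k - 1)) ∧
    (∀ (W : Type) (H : SimpleGraph W), (∃ x y, H.Adj x y) → GRstar H 2 = GR H 1) :=
  ⟨connected_case, two_colours⟩

end Pool.Agent.Results.MP_114a18_co.ConnectedGraphs
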